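import Mathlib

/-!
# Integral linear forms which decide relations, primitive recursive tests
-/

set_option autoImplicit false

namespace Run7.h893.DP

/-- **Integral linear forms decide the integral relations between finitely many vectors of a rational space.** -/
theorem exists_forms {F : Type*} [AddCommGroup F] [Module ℚ F] {M : ℕ} (φ : Fin M → F) :
    ∃ (R : ℕ) (A : Fin R → Fin M → ℤ), ∀ x : Fin M → ℤ, ∑ m, (x m : ℚ) • φ m = 0 ↔ ∀ r, ∑ m, A r m * x m = 0 := by
  classical
  set L : (Fin M → ℚ) →ₗ[ℚ] F := Fintype.linearCombination ℚ φ with hL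
  have hLv : ∀ x : Fin M → ℚ, L x = ∑ m, x m • φ m := fun x => Fintype.linearCombination_apply ℚ φ x
  set K := LinearMap.ker L with hK
  set b := Module.finBasis ℚ ((Fin M → ℚ) ⧸ K) with hb
  set B : Fin (Module.finrank ℚ ((Fin M → ℚ) ⧸ K)) → Fin M → ℚ := fun r m => b.repr (K.mkQ (Pi.single m 1)) r with hB
  have hrepr : ∀ (x : Fin M → ℚ) r, b.repr (K.mkQ x) r = ∑ m, B r m * x m := by
    intro x r
    have h1 : x = ∑ m, x m • (Pi.single m (1 : ℚ) : Fin M → ℚ) := by
      funext j
      rw [Finset.sum_apply, Finset.sum_eq_single j]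
      · simp
      · intro c _ hc
        simp [Pi.single_eq_of_ne (Ne.symm hc)]
      · intro h
        exact absurd (Finset.mem_univ _) h
    conv_lhs => rw [h1]
    rw [map_sum, map_sum, Finsupp.finsetSum_apply]
    refine Finset.sum_congr rfl fun m _ => ?_
    rw [map_smul, map_smul, Finsupp.smul_apply, smul_eq_mul, mul_comm]
  obtain ⟨d, hd⟩ := IsLocalization.exist_integer_multiples_of_finite (nonZeroDivisors ℤ)
    (fun p : Fin (Module.finrank ℚ ((Fin M → ℚ) ⧸ K)) × Fin M => B p.1 p.2)
  have hd0 : (((d : ℤ) : ℚ)) ≠ 0 := by exact_mod_cast nonZeroDivisors.coe_ne_zero d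
  choose A hA using hd
  refine ⟨_, fun r m => A (r, m), fun x => ?_⟩
  have h1 : ∑ m, (x m : ℚ) • φ m = L fun m => (x m : ℚ) := (hLv _).symm
  rw [h1]
  have h2 : L (fun m => (x m : ℚ)) = 0 ↔ (K.mkQ fun m => (x m : ℚ)) = 0 := by
    rw [Submodule.mkQ_apply, Submodule.Quotient.mk_eq_zero, hK, LinearMap.mem_ker]
  rw [h2, ← b.repr.map_eq_zero_iff, Finsupp.ext_iff]
  refine forall_congr' fun r => ?_
  rw [hrepr, Finsupp.zero_apply]
  have h3 : ((∑ m, A (r, m) * x m : ℤ) : ℚ) = ((d : ℤ) : ℚ) * ∑ m, B r m * x m := by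
    push_cast
    rw [Finset.mul_sum]
    refine Finset.sum_congr rfl fun m _ => ?_
    have h4 := hA (r, m)
    have h5 : ((A (r, m) : ℤ) : ℚ) = ((d : ℤ) : ℚ) * B r m := by
      rw [← zsmul_eq_mul]
      exact h4
    rw [h5]
    ring
  constructor
  · intro h
    have h6 : ((∑ m, A (r, m) * x m : ℤ) : ℚ) = 0 := by rw [h3, h, mul_zero]
    exact_mod_cast h6
  · intro h
    rw [h, Int.cast_zero] at h3
    exact (mul_eq_zero.1 h3.symm).resolve_left hd0

theorem primrec_sum {α : Type*} [Primcodable α] {M : ℕ} {f : Fin M → α → ℕ} (hf : ∀ m, Primrec (f m)) :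
    Primrec fun x => ∑ m, f m x := by
  classical
  have h : ∀ s : Finset (Fin M), Primrec fun x => ∑ m ∈ s, f m x := by
    intro s
    induction s using Finset.induction_on with
    | empty =>
      simp only [Finset.sum_empty]
      exact Primrec.const 0
    | insert a s ha ih =>
      simp only [Finset.sum_insert ha]
      exact Primrec.nat_add.comp (hf a) ih
  exact h Finset.univ

theorem primrec_all {α : Type*} [Primcodable α] {R : ℕ} {p : Fin R → α → Bool} (hp : ∀ r, Primrec (p r)) :
    Primrec fun x => (List.finRange R).all fun r => p r x := by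
  have h : ∀ l : List (Fin R), Primrec fun x => l.all fun r => p r x := by
    intro l
    induction l with
    | nil => exact Primrec.const true
    | cons a l ih =>
      simp only [List.all_cons]
      exact Primrec.and.comp (hp a) ih
  exact h _

/-- the test given by integral linear forms -/
def test {R M : ℕ} (A : Fin R → Fin M → ℤ) (x : (Fin M → ℕ) × (Fin M → ℕ)) : Bool :=
  (List.finRange R).all fun r => (∑ m, ((A r m).toNat * x.1 m + (-A r m).toNat * x.2 m)) ==
    (∑ m, ((A r m).toNat * x.2 m + (-A r m).toNat * x.1 m))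

theorem primrec_test {R M : ℕ} (A : Fin R → Fin M → ℤ) : Primrec (test A) := by
  have h1 : ∀ m : Fin M, Primrec fun x : (Fin M → ℕ) × (Fin M → ℕ) => x.1 m := fun m =>
    Primrec.fin_app.comp Primrec.fst (Primrec.const m)
  have h2 : ∀ m : Fin M, Primrec fun x : (Fin M → ℕ) × (Fin M → ℕ) => x.2 m := fun m =>
    Primrec.fin_app.comp Primrec.snd (Primrec.const m)
  refine primrec_all fun r => Primrec.beq.comp (primrec_sum fun m => ?_) (primrec_sum fun m => ?_)
  · exact Primrec.nat_add.comp (Primrec.nat_mul.comp (Primrec.const _) (h1 m)) (Primrec.nat_mul.comp (Primrec.const _) (h2 m))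
  · exact Primrec.nat_add.comp (Primrec.nat_mul.comp (Primrec.const _) (h2 m)) (Primrec.nat_mul.comp (Primrec.const _) (h1 m))

theorem test_iff {R M : ℕ} (A : Fin R → Fin M → ℤ) (a b : Fin M → ℕ) :
    test A (a, b) = true ↔ ∀ r, ∑ m, A r m * ((a m : ℤ) - b m) = 0 := by
  unfold test
  rw [List.all_eq_true]
  constructor
  · intro h r
    have h1 := h r (List.mem_finRange r)
    rw [beq_iff_eq] at h1
    have h2 : ((∑ m, ((A r m).toNat * a m + (-A r m).toNat * b m) : ℕ) : ℤ) =
        ((∑ m, ((A r m).toNat * b m + (-A r m).toNat * a m) : ℕ) : ℤ) := by exact_mod_cast h1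
    push_cast at h2
    rw [← sub_eq_zero, ← Finset.sum_sub_distrib] at h2
    rw [← h2]
    refine Finset.sum_congr rfl fun m _ => ?_
    have h3 : (A r m) = max (A r m) 0 - max (-A r m) 0 := by
      rcases le_total (A r m) 0 with h | h
      · rw [max_eq_right h, max_eq_left (by linarith)]
        ring
      · rw [max_eq_left h, max_eq_right (by linarith)]
        ring
    rw [Int.ofNat_toNat, Int.ofNat_toNat]
    linear_combination ((a m : ℤ) - b m) * h3
  · intro h r _
    rw [beq_iff_eq]
    have h1 := h r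
    have h2 : ((∑ m, ((A r m).toNat * a m + (-A r m).toNat * b m) : ℕ) : ℤ) =
        ((∑ m, ((A r m).toNat * b m + (-A r m).toNat * a m) : ℕ) : ℤ) := by
      push_cast
      rw [← sub_eq_zero, ← Finset.sum_sub_distrib, ← h1]
      refine Finset.sum_congr rfl fun m _ => ?_
      have h3 : (A r m) = max (A r m) 0 - max (-A r m) 0 := by
        rcases le_total (A r m) 0 with h | h
        · rw [max_eq_right h, max_eq_left (by linarith)]
          ring
        · rw [max_eq_left h, max_eq_right (by linarith)]
          ring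
      rw [Int.ofNat_toNat, Int.ofNat_toNat]
      linear_combination -((a m : ℤ) - b m) * h3
    exact_mod_cast h2

end Run7.h893.DP
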